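import Pool.Agent.Helper57_C2.Stmts
import Pool.Agent.Helper43_DF.Cov
import Pool.Agent.Helper75_PP.Fr
import Pool.Agent.Helper18_PP.Dzf
import Pool.Agent.Helper66_PP.Pos1

/-!
# Squad C2, row COVN (helper52)
-/

open scoped BigOperators

noncomputable section

namespace Pool.Agent.PP.C2.H52

open Pool.Agent.Helper51_AWC Pool.Agent.Helper79_WRA Pool.Agent.PP Pool.Agent.PP.KF
open Pool.Agent.PP.K9

attribute [local instance] Ideal.Quotient.field

/-- COVN -/
theorem covn : CovnStmt := by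
  classical
  intro ℓ _ F _ hF X _ _ Y hY b hb e he hne Q hQY hQ hg
  have h : H75.Bd Y b := ⟨hY, hb.off, hb.blk⟩
  have := Fintype.ofFinite (H75.Om b)
  have hcor := (h.fam2 he).cor (H75.omk b 1)
  rw [H75.om_stab, H75.omk_one] at hcor
  have hsupp := hcor.supp
  have hid := hcor.isIdem
  -- `b` is invariant under `Y`
  have hbY : ∀ n ∈ Y, ∀ x, b (n * x * n⁻¹) = b x := by
    intro n hn x
    by_cases hx : x ∈ Y
    · exact hb.blk.1.1 ⟨x, hx⟩ ⟨n, hn⟩
    · have hx' : n * x * n⁻¹ ∉ Y := by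
        intro hc
        apply hx
        have h1 := Y.mul_mem (Y.mul_mem (Y.inv_mem hn) hc) hn
        have e1 : n⁻¹ * (n * x * n⁻¹) * n = x := by group
        rw [e1] at h1; exact h1
      rw [hb.off _ hx, hb.off _ hx']
  set T : Subgroup X := H75.st b with hT
  have hYT : Y ≤ T := by
    intro n hn
    rw [hT, H75.mem_st, H75.cj_eq_iff]
    exact hbY n hn
  let Y' : Subgroup T := Y.subgroupOf T
  have hY' : Y'.Normal := hY.subgroupOf T
  let ι : Y' ≃* Y := Subgroup.subgroupOfEquivOfLe hYT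
  let bT : T → F := fun t => b t
  have hbT : IsBlk (fun t : Y' => bT t) := H18.blk_equiv ι hb.blk
  have hbT0 : ∀ x, x ∉ Y' → bT x = 0 := fun x hx => hb.off x (fun h => hx h)
  have hbTc : IsCl bT := by
    intro x y
    have h1 : (y : X) ∈ H75.st b := y.2
    rw [H75.mem_st, H75.cj_eq_iff] at h1
    exact h1 x
  have hsb : SBlk Y' bT := ⟨hbT0, hbTc, hbT⟩
  let eT : T → F := fun t => mulF e b t
  have hbb : mulF b b = b := by
    have h1 := H75.mulF_res Y b hb.off
    funext x
    by_cases hx : x ∈ Y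
    · have h2 := congrFun h1 ⟨x, hx⟩
      have h3 : mulF b b x = mulF (fun t : Y => b t) (fun t : Y => b t) ⟨x, hx⟩ := h2
      rw [h3, hb.blk.1.2]
    · rw [hb.off _ hx]
      exact H75.mulF_supp Y hb.off hb.off x hx
  have hmul : mulF eT bT = eT := by
    have h1 := H75.mulF_res T (a := mulF e b) b hsupp
    have h2 : mulF (mulF e b) b = mulF e b := by
      apply ma_injective
      rw [ma_mul, ma_mul, mul_assoc, ← ma_mul, hbb]
    rw [h2] at h1
    exact h1.symm
  have heT : eT ≠ 0 := by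
    intro h0
    apply hne
    funext x
    by_cases hx : x ∈ T
    · exact congrFun h0 ⟨x, hx⟩
    · exact hsupp x hx
  have hQT : Q ≤ T := hQY.trans hYT
  obtain ⟨g, hgC, hgb⟩ := hg
  have hmemC : ∀ x : T, x ∈ Subgroup.centralizer ((Q.subgroupOf T : Subgroup T) : Set T) ↔
      (x : X) ∈ Subgroup.centralizer (Q : Set X) := by
    intro x
    rw [Subgroup.mem_centralizer_iff, Subgroup.mem_centralizer_iff]
    constructor
    · intro hx q hq
      exact congrArg Subtype.val (hx ⟨q, hQT hq⟩ hq)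
    · intro hx q hq
      exact Subtype.ext (hx q hq)
  have hgY : g ∈ Y := by
    by_contra hc
    exact hgb (hb.off g hc)
  obtain ⟨g', hg'C, hg'⟩ := DF.H43.covE ℓ F hF T Y' hY' bT hsb eT hid heT hmul (Q.subgroupOf T)
    (fun x hx => hQY hx) (hQ.comap_of_injective T.subtype T.subtype_injective)
    ⟨⟨g, hYT hgY⟩, (hmemC _).2 hgC, hgb⟩
  have hg2 : (g' : X) ∈ Subgroup.centralizer (Q : Set X) := (hmemC g').1 hg'C
  have hbr := H66.br_mulF hF hQ (a := e) (b := b) (fun p _ t => he.1 t p)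
    (fun p hp t => hbY p (hQY hp) t)
  by_contra hcon
  have hcon' : ∀ x ∈ Subgroup.centralizer (Q : Set X), e x = 0 := by
    intro x hx
    by_contra h0
    exact hcon ⟨x, hx, h0⟩
  have hz : PP.br Q e = 0 := by
    funext x
    by_cases hx : x ∈ Subgroup.centralizer (Q : Set X)
    · rw [H66.br_of_mem hx]; exact hcon' x hx
    · rw [H66.br_of_not_mem hx]; rfl
  apply hg'
  change mulF e b (g' : X) = 0
  rw [← H66.br_of_mem (a := mulF e b) hg2, hbr, hz]
  unfold mulF
  simp

end Pool.Agent.PP.C2.H52
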