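import Pool.Agent.Helper57_C2.Stmts
import Pool.Agent.Helper3_K9.Lbd

/-!
# Squad C2, row BN2 (helper52): the columns of order `ℓ ^ n`
-/

open scoped BigOperators

noncomputable section

namespace Pool.Agent.PP.C2.H52

open Pool.Agent.Helper51_AWC Pool.Agent.Helper79_WRA Pool.Agent.PP Pool.Agent.PP.KF
open Pool.Agent.PP.K9

attribute [local instance] Ideal.Quotient.field

/-- `C(V) ≤ T` -/
theorem cent_le {F G : Type} [Field F] [Group G] {ℓ : ℕ} {e : G → F} {V : Subgroup G}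
    {γ : G → F} {T : Subgroup G} (h : Inr ℓ e V γ T) :
    Subgroup.centralizer (V : Set G) ≤ T := by
  intro g hg
  rw [h.stb]
  refine Subgroup.mem_inf.mpr ⟨?_, ?_⟩
  · rw [Subgroup.mem_normalizer_iff]
    intro x
    constructor
    · intro hx
      have := hg x hx
      have e1 : g * x * g⁻¹ = x := by rw [← this]; group
      rw [e1]; exact hx
    · intro hx
      have := hg _ hx
      have e1 : g * x * g⁻¹ = x := by
        have e2 : g * x * g⁻¹ * g = g * (g * x * g⁻¹) := this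
        have e3 : g * x = g * (g * x * g⁻¹) := by rw [← e2]; group
        exact (mul_left_cancel e3).symm
      rw [e1] at hx; exact hx
  · intro x
    by_cases hx : x ∈ Subgroup.centralizer (V : Set G)
    · exact h.gam.blk.1.1 ⟨x, hx⟩ ⟨g, hg⟩
    · have hx' : g * x * g⁻¹ ∉ Subgroup.centralizer (V : Set G) := by
        intro hc
        apply hx
        have h1 := (Subgroup.centralizer (V : Set G)).mul_mem
          ((Subgroup.centralizer (V : Set G)).mul_mem
          ((Subgroup.centralizer (V : Set G)).inv_mem hg) hc) hg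
        have e1 : g⁻¹ * (g * x * g⁻¹) * g = x := by group
        rw [e1] at h1; exact h1
      rw [h.gam.off _ hx, h.gam.off _ hx']

theorem lb_congr {F G : Type} [Field F] [Group G] (β : G → F) {A B : Subgroup G} (h : A = B) :
    lb (fun t : A => β t) = lb (fun t : B => β t) := by
  subst h; rfl

theorem relIndex_pos {G : Type} [Group G] [Finite G] (A B : Subgroup G) : 0 < A.relIndex B :=
  Nat.pos_of_ne_zero (Subgroup.FiniteIndex.index_ne_zero (H := A.subgroupOf B))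

/-- the centralisers of two generators -/
theorem cu_eq {G : Type} [Group G] {u w : G} (h1 : w ∈ Subgroup.zpowers u)
    (h2 : u ∈ Subgroup.zpowers w) : Cu w = Cu u := by
  have key : ∀ a b : G, b ∈ Subgroup.zpowers a → Cu a ≤ Cu b := by
    rintro a b ⟨k, rfl⟩ x hx
    rw [Subgroup.mem_centralizer_singleton_iff] at hx ⊢
    exact (Commute.zpow_right (show Commute x a from hx) k)
  exact le_antisymm (key _ _ h2) (key _ _ h1)

/-- generators of a cyclic group of order `ℓ ^ n` -/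
theorem card_gen {G : Type} [Group G] [Finite G] (ℓ : ℕ) [hℓ : Fact ℓ.Prime] (n : ℕ) (hn : 1 ≤ n)
    (u : G) (hu : orderOf u = ℓ ^ n) :
    {w : G | w ∈ Subgroup.zpowers u ∧ orderOf w = ℓ ^ n}.ncard = ℓ ^ (n - 1) * (ℓ - 1) := by
  classical
  haveI : Fintype (Subgroup.zpowers u) := Fintype.ofFinite _
  have h1 := IsCyclic.card_orderOf_eq_totient (α := Subgroup.zpowers u) (d := ℓ ^ n)
    (by rw [← Nat.card_eq_fintype_card, Nat.card_zpowers, hu])
  rw [Nat.totient_prime_pow hℓ.out (by omega)] at h1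
  rw [← h1]
  have h2 : {w : G | w ∈ Subgroup.zpowers u ∧ orderOf w = ℓ ^ n} =
      Subtype.val '' ((({a : Subgroup.zpowers u | orderOf a = ℓ ^ n} :
        Finset (Subgroup.zpowers u))) : Set (Subgroup.zpowers u)) := by
    ext w
    constructor
    · rintro ⟨hw, ho⟩
      refine ⟨⟨w, hw⟩, ?_, rfl⟩
      simp only [Finset.coe_filter, Finset.mem_univ, true_and, Set.mem_ofPred_eq]
      rw [← ho, ← Subgroup.orderOf_coe]
    · rintro ⟨a, ha, rfl⟩
      simp only [Finset.coe_filter, Finset.mem_univ, true_and, Set.mem_ofPred_eq] at ha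
      exact ⟨a.2, by rw [Subgroup.orderOf_coe, ha]⟩
  rw [h2, Set.ncard_image_of_injective _ Subtype.val_injective, Set.ncard_coe_finset]

/-- the other elements of order `ℓ ^ n` -/
theorem card_other {G : Type} [Group G] [Finite G] (ℓ : ℕ) [hℓ : Fact ℓ.Prime] (n : ℕ)
    (hn : 1 ≤ n) (V : Subgroup G) (hV : Tn ℓ n V) (u : G) (huV : u ∈ V)
    (hu : orderOf u = ℓ ^ n) :
    ℓ ^ (n - 1) * (ℓ - 1) * (ℓ - 1) ≤
      {w : G | w ∈ V ∧ orderOf w = ℓ ^ n ∧ w ∉ Subgroup.zpowers u}.ncard := by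
  classical
  obtain ⟨k, rfl⟩ : ∃ k, n = k + 1 := ⟨n - 1, by omega⟩
  have hp : ℓ.Prime := hℓ.out
  -- the subgroup `K`
  let K : Subgroup G :=
    { carrier := {x | x ∈ V ∧ x ^ ℓ ^ k = 1}
      one_mem' := ⟨V.one_mem, one_pow _⟩
      mul_mem' := by
        rintro a b ⟨ha, ha'⟩ ⟨hb, hb'⟩
        refine ⟨V.mul_mem ha hb, ?_⟩
        rw [(show Commute a b from hV.comm a ha b hb).mul_pow, ha', hb', one_mul]
      inv_mem' := by
        rintro a ⟨ha, ha'⟩
        exact ⟨V.inv_mem ha, by rw [inv_pow, ha', inv_one]⟩ }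
  have hKV : K ≤ V := fun x hx => hx.1
  have huK : u ∉ K := by
    intro h
    have h1 : u ^ ℓ ^ k = 1 := h.2
    have h2 := orderOf_dvd_of_pow_eq_one h1
    rw [hu] at h2
    have h3 := Nat.le_of_dvd (pow_pos hp.pos _) h2
    have h4 : ℓ ^ k < ℓ ^ (k + 1) := Nat.pow_lt_pow_right hp.one_lt (by omega)
    omega
  have hcV : Nat.card V = ℓ ^ (k + 2) := hV.card
  have hKd : Nat.card K ∣ ℓ ^ (k + 2) := by rw [← hcV]; exact Subgroup.card_dvd_of_le hKV
  have hKc : Nat.card K ≤ ℓ ^ (k + 1) := by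
    obtain ⟨j, hj, hj'⟩ := (Nat.dvd_prime_pow hp).mp hKd
    rw [hj']
    apply Nat.pow_le_pow_right hp.pos
    by_contra hcon
    have : j = k + 2 := by omega
    rw [this, ← hcV] at hj'
    have := Subgroup.eq_of_le_of_card_ge hKV (le_of_eq hj'.symm)
    rw [this] at huK
    exact huK huV
  -- orders
  have hord : ∀ x ∈ V, x ∉ K → orderOf x = ℓ ^ (k + 1) := by
    intro x hx hxK
    have h1 : orderOf x ∣ ℓ ^ (k + 2) := by
      rw [← hcV]; exact Subgroup.orderOf_dvd_natCard V hx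
    obtain ⟨j, hj, hj'⟩ := (Nat.dvd_prime_pow hp).mp h1
    have h2 : ¬ j ≤ k := by
      intro hjk
      apply hxK
      refine ⟨hx, ?_⟩
      apply orderOf_dvd_iff_pow_eq_one.mp
      rw [hj']
      exact Nat.pow_dvd_pow _ hjk
    have h3 : j ≠ k + 2 := by
      intro hjk
      apply hV.ncyc
      apply isCyclic_of_orderOf_eq_card (⟨x, hx⟩ : V)
      rw [Subgroup.orderOf_mk, hj', hjk, hcV]
    rw [hj']
    congr 1
    omega
  -- the intersection
  have hint : ℓ ^ k ≤ ((Subgroup.zpowers u ⊓ K : Subgroup G) : Set G).ncard := by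
    have h1 : Subgroup.zpowers (u ^ ℓ) ≤ Subgroup.zpowers u ⊓ K := by
      rw [Subgroup.zpowers_le]
      refine ⟨Subgroup.pow_mem _ (Subgroup.mem_zpowers u) _, V.pow_mem huV _, ?_⟩
      rw [← pow_mul, ← pow_succ', ← hu, pow_orderOf_eq_one]
    have h2 : Nat.card (Subgroup.zpowers (u ^ ℓ)) = ℓ ^ k := by
      rw [Nat.card_zpowers, orderOf_pow, hu, pow_succ', Nat.gcd_mul_right_left,
        Nat.mul_div_cancel_left _ hp.pos]
    rw [← h2, ← Nat.card_coe_set_eq]
    exact Nat.card_le_card_of_injective _ (Subgroup.inclusion_injective h1)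
  have hVs : (V : Set G).ncard = ℓ ^ (k + 2) := by rw [← hcV]; exact (Nat.card_coe_set_eq _).symm
  have hus : (Subgroup.zpowers u : Set G).ncard = ℓ ^ (k + 1) := by
    rw [← Nat.card_coe_set_eq]
    exact (Nat.card_zpowers u).trans hu
  have hKs : (K : Set G).ncard ≤ ℓ ^ (k + 1) := by
    rw [← Nat.card_coe_set_eq]; exact hKc
  have hun := Set.ncard_union_add_ncard_inter (Subgroup.zpowers u : Set G) (K : Set G)
    (Set.toFinite _) (Set.toFinite _)
  have hint' : ℓ ^ k ≤ ((Subgroup.zpowers u : Set G) ∩ (K : Set G)).ncard := hint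
  have hsub : (V : Set G) \ ((Subgroup.zpowers u : Set G) ∪ (K : Set G)) ⊆
      {w : G | w ∈ V ∧ orderOf w = ℓ ^ (k + 1) ∧ w ∉ Subgroup.zpowers u} := by
    rintro w ⟨hw, hw'⟩
    exact ⟨hw, hord w hw fun h => hw' (Or.inr h), fun h => hw' (Or.inl h)⟩
  have h5 := Set.ncard_le_ncard hsub (Set.toFinite _)
  have h6 := Set.le_ncard_sdiff ((Subgroup.zpowers u : Set G) ∪ (K : Set G)) (V : Set G)
    (Set.toFinite _)
  have e1 : ℓ ^ (k + 2) = ℓ ^ k * (ℓ * ℓ) := by ring
  have e2 : ℓ ^ (k + 1) = ℓ ^ k * ℓ := by ring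
  obtain ⟨a, ha⟩ : ∃ a, ℓ = a + 1 := ⟨ℓ - 1, by have := hp.pos; omega⟩
  have e3 : ℓ ^ k * (ℓ - 1) * (ℓ - 1) + ℓ ^ k * ℓ + ℓ ^ k * ℓ = ℓ ^ k * (ℓ * ℓ) + ℓ ^ k := by
    have : ℓ - 1 = a := by omega
    rw [this]
    generalize ℓ ^ k = q
    rw [ha]
    ring
  have e4 : k + 1 - 1 = k := by omega
  rw [e4]
  rw [e1] at hVs
  rw [e2] at hus hKs
  omega

/-- BN2 -/
theorem bn2 (hE : ExbStmt) (hC : ColStmt) (hL : LbuStmt) : Bn2Stmt := by
  classical
  intro ℓ hℓ M _ hM G _ _ e V γ T hI n hn hV u huV hu huT β hβ m hm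
  have hp : ℓ.Prime := hℓ.out
  have hF : GoodF ℓ (FF M) := H50.fld ℓ Fact.out M hM
  set C : Subgroup G := Subgroup.centralizer (V : Set G) with hCdef
  set E : ℕ := lb (fun t : Cu u => β t) with hEdef
  set E' : ℕ := C.relIndex (T ⊓ Cu u) with hE'def
  set r : ℕ := (T ⊓ Cu u).relIndex T with hrdef
  have hCT : C ≤ T := cent_le hI
  have hCu : C ≤ T ⊓ Cu u := by
    refine le_inf hCT ?_
    intro x hx
    rw [Subgroup.mem_centralizer_singleton_iff]
    exact (hx u huV).symm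
  have hR : E' * r = C.relIndex T := Subgroup.relIndex_mul_relIndex _ _ _ hCu inf_le_left
  have hE'pos : 0 < E' := relIndex_pos _ _
  have hEE' : E' ≤ E := by
    apply hL ℓ M hM G e V γ T hI u huV _ β hβ
    rw [hV.card, hu, pow_succ']
  have hlb : ∀ w ∈ V, ∀ β' : G → FF M, Ab V γ w β' → 1 ≤ lb (fun t : Cu w => β' t) := by
    intro w _ β' hβ'
    exact (Pool.Agent.PP.K9.H3.lbd ℓ M hM (Cu w) _ hβ'.bk.blk.1 hβ'.bk.blk.2.1).1
  -- COL
  let W : Set G := {w | w ∈ V ∧ orderOf w = ℓ ^ n}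
  let L : G → ℕ := fun w => if w ∈ Subgroup.zpowers u then E else 1
  have hW1 : ∀ w ∈ W, w ∈ V ∧ w ≠ 1 := by
    rintro w ⟨hw, ho⟩
    refine ⟨hw, ?_⟩
    rintro rfl
    rw [orderOf_one] at ho
    have : 1 < ℓ ^ n := Nat.one_lt_pow (by omega) hp.one_lt
    omega
  have hW2 : ∀ t ∈ T, ∀ w ∈ W, t * w * t⁻¹ ∈ W := by
    rintro t ht w ⟨hw, ho⟩
    rw [hI.stb] at ht
    have ht1 := (Subgroup.mem_inf.mp ht).1
    rw [Subgroup.mem_normalizer_iff] at ht1
    refine ⟨(ht1 w).mp hw, ?_⟩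
    rw [← ho]
    exact orderOf_injective (MulAut.conj t).toMonoidHom (MulAut.conj t).injective w
  have hgen : ∀ w : G, w ∈ Subgroup.zpowers u → orderOf w = ℓ ^ n →
      Cu w = Cu u := by
    intro w hw ho
    apply cu_eq hw
    have h1 : Subgroup.zpowers w ≤ Subgroup.zpowers u := by
      rw [Subgroup.zpowers_le]; exact hw
    have h2 : Subgroup.zpowers w = Subgroup.zpowers u := by
      apply Subgroup.eq_of_le_of_card_ge h1
      rw [Nat.card_zpowers, Nat.card_zpowers, hu, ho]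
    rw [h2]
    exact Subgroup.mem_zpowers u
  obtain ⟨β0, hβ0, -, -, huniq, -⟩ := hE ℓ (FF M) hF G e V γ T hI u huV
  have hL1 : ∀ w ∈ W, ∀ β' : G → FF M, Ab V γ w β' → L w ≤ lb (fun t : Cu w => β' t) := by
    rintro w ⟨hw, ho⟩ β' hβ'
    change (if w ∈ Subgroup.zpowers u then E else 1) ≤ _
    split_ifs with hwu
    · have hc := hgen w hwu ho
      have hβ2 : Ab V γ u β' := ⟨hc ▸ hβ'.bk, hβ'.und⟩
      have e1 : β' = β := (huniq β' hβ2).trans (huniq β hβ).symm
      rw [e1, lb_congr β hc]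
    · exact hlb w hw β' hβ'
  have hcol := hC ℓ M hM G e V γ T hI W L hW1 hW2 hL1
  rw [← hCdef] at hcol
  -- the sum
  have hWf : W.Finite := Set.toFinite _
  rw [finsum_mem_eq_finite_toFinset_sum _ hWf] at hcol
  have hsplit := Finset.sum_filter_add_sum_filter_not hWf.toFinset
    (fun w => w ∈ Subgroup.zpowers u) (fun w => L w * C.relIndex (T ⊓ Cu w))
  have hs1 : ∑ w ∈ hWf.toFinset with w ∈ Subgroup.zpowers u, L w * C.relIndex (T ⊓ Cu w) =
      (hWf.toFinset.filter fun w => w ∈ Subgroup.zpowers u).card * (E * E') := by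
    rw [Finset.sum_const_nat]
    intro w hw
    rw [Finset.mem_filter, Set.Finite.mem_toFinset] at hw
    obtain ⟨⟨hw1, hw2⟩, hw3⟩ := hw
    change (if w ∈ Subgroup.zpowers u then E else 1) * _ = _
    rw [if_pos hw3, hgen w hw3 hw2]
  have hs2 : (hWf.toFinset.filter fun w => ¬ w ∈ Subgroup.zpowers u).card ≤
      ∑ w ∈ hWf.toFinset with ¬ w ∈ Subgroup.zpowers u, L w * C.relIndex (T ⊓ Cu w) := by
    rw [Finset.card_eq_sum_ones]
    apply Finset.sum_le_sum
    intro w hw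
    rw [Finset.mem_filter, Set.Finite.mem_toFinset] at hw
    change 1 ≤ (if w ∈ Subgroup.zpowers u then E else 1) * _
    rw [if_neg hw.2, one_mul]
    exact relIndex_pos _ _
  have hc1 : (hWf.toFinset.filter fun w => w ∈ Subgroup.zpowers u).card =
      ℓ ^ (n - 1) * (ℓ - 1) := by
    rw [← card_gen ℓ n (by omega) u hu, ← Set.ncard_coe_finset]
    congr 1
    ext w
    simp only [Finset.coe_filter, Set.Finite.mem_toFinset, Set.mem_ofPred_eq]
    constructor
    · rintro ⟨⟨_, h2⟩, h3⟩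
      exact ⟨h3, h2⟩
    · rintro ⟨h3, h2⟩
      refine ⟨⟨?_, h2⟩, h3⟩
      exact (Subgroup.zpowers_le.mpr huV) h3
  have hc2 : ℓ ^ (n - 1) * (ℓ - 1) * (ℓ - 1) ≤
      (hWf.toFinset.filter fun w => ¬ w ∈ Subgroup.zpowers u).card := by
    refine (card_other ℓ n (by omega) V hV u huV hu).trans (le_of_eq ?_)
    rw [← Set.ncard_coe_finset]
    congr 1
    ext w
    simp only [Finset.coe_filter, Set.Finite.mem_toFinset, Set.mem_ofPred_eq]
    constructor
    · rintro ⟨h1, h2, h3⟩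
      exact ⟨⟨h1, h2⟩, h3⟩
    · rintro ⟨⟨h1, h2⟩, h3⟩
      exact ⟨h1, h2, h3⟩
  rw [← hsplit, hs1, hc1] at hcol
  have hm1 : ℓ - 1 = E * m := by omega
  set A : ℕ := ℓ ^ (n - 1) * (ℓ - 1) with hA
  have hfin : A * (E * E') + A * (E * m) + E' * r * lb e ≤ E' * r * (IrrE M e).ncard := by
    rw [hR]
    rw [← hm1]
    have := hc2.trans hs2
    omega
  have hmul : A * (E' * m) ≤ A * (E * m) :=
    Nat.mul_le_mul_left _ (Nat.mul_le_mul_right _ hEE')
  apply Nat.le_of_mul_le_mul_left _ hE'pos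
  calc E' * (A * (E + m) + r * lb e) = A * (E * E') + A * (E' * m) + E' * r * lb e := by ring
    _ ≤ A * (E * E') + A * (E * m) + E' * r * lb e := by omega
    _ ≤ E' * r * (IrrE M e).ncard := hfin
    _ = E' * (r * (IrrE M e).ncard) := by ring

end Pool.Agent.PP.C2.H52
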