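import Pool.Agent.Helper57_C2.Stmts
import Pool.Agent.Helper66_ML.Mn4

/-!
# Squad C2, row DIV (helper52)
-/

open scoped BigOperators

noncomputable section

namespace Pool.Agent.PP.C2.H52

open Pool.Agent.Helper51_AWC Pool.Agent.Helper79_WRA Pool.Agent.PP Pool.Agent.PP.KF
open Pool.Agent.PP.K9

attribute [local instance] Ideal.Quotient.field

/-- DIV -/
theorem div (hT : TdfStmt) : DivStmt := by
  intro ℓ _ M _ hM G _ _ hO e he V hV hab χ hχ hres z hz
  have hD : ML.IsDef ℓ M χ V := hT ℓ M hM G e he V hV χ hχ hres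
  letI : CommGroup V := { (inferInstance : Group V) with
    mul_comm := fun a b => Subtype.ext (hab a a.2 b b.2) }
  have hbot : ∀ r : V, (r : G) ∈ opCore ℓ G → r = 1 := by
    intro r hr
    rw [hO, Subgroup.mem_bot] at hr
    exact Subtype.ext hr
  have h := ML.mn4_ ℓ M hM G (by rw [hO]; exact bot_le) χ hχ V hD V (MonoidHom.id V)
    (fun r hr => by rw [hbot r hr]; rfl) ⟨z, hz⟩ (fun d => by
      have h1 : (z : G) * d * z⁻¹ * (d : G)⁻¹ = 1 := by
        rw [hab z hz d d.2]; group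
      change (z : G) * d * z⁻¹ * (d : G)⁻¹ ∈ opCore ℓ G
      rw [h1]
      exact (opCore ℓ G).one_mem)
  rw [hO, Subgroup.card_bot, mul_one] at h
  have h2 : orderOf ((MonoidHom.id V) ⟨z, hz⟩) = orderOf z := by
    rw [← Subgroup.orderOf_coe]
    rfl
  rw [h2] at h
  exact h

end Pool.Agent.PP.C2.H52
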